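import Pool.Agent.Lib.MP_1a91b9_ntX.DB.VT
import Pool.Agent.Lib.MP_1a91b9_ntX.HD
import Pool.Agent.Lib.MP_1a91b9_ntT.DS.Defs
import Pool.Agent.Lib.MP_1a91b9_ntT.DS.Proj

/-!
# The curves `y² = x³ + D`, the tower: definitions (port of MP_1a91b9_ntT/DS/Defs.lean and
MP_1a91b9_ntT/TG/Defs.lean)
-/

set_option autoImplicit false

namespace Pool.Agent.Lib.MP_1a91b9_ntX.DS

open NumberField IsDedekindDomain WeierstrassCurve Pool.Agent.Lib.MP_1a91b9_ntT
open Pool.Agent.Lib.MP_1a91b9_ntX.DB

export Pool.Agent.Lib.MP_1a91b9_ntT.DS (UnrL inU inU_coe elm elm_el nmg)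

universe u

noncomputable section

section
variable [DD]
variable (F F' : Type u) {N N' : Type u} [Field F] [NumberField F] [Algebra K F]
  [Field F'] [NumberField F'] [Algebra K F'] [Algebra F F'] [IsScalarTower K F F']
  [Field N] [NumberField N] [Algebra K N] [Algebra F N] [IsScalarTower K F N] [DecidableEq N]
  [Field N'] [NumberField N'] [Algebra K N'] [Algebra F' N'] [IsScalarTower K F' N']
  [DecidableEq N'] [Algebra N N'] [IsScalarTower K N N']

/-- The square: `F'/F` of degree `ℓ`, `N = F(P)`, `N' = F'(P')`, `P` maps to `P'`. -/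
structure Sq (ϖ : 𝓞 K) (ℓ : ℕ) (P : Pt N) (P' : Pt N') : Prop where
  full : Full F ϖ P
  full' : Full F' ϖ P'
  map : pm (IsScalarTower.toAlgHom K N N') P = P'
  deg : Module.finrank F F' = ℓ
  deg' : Module.finrank N N' = ℓ

end

/-- The towers over the fields with property `P`: Galois extensions of degree `ℓ`, unramified above
`ℓ`, in which only places with `ψ v - 1` prime to `ℓ` ramify. -/
inductive TowerG [DD] [HC] (P : ∀ (F : Type u) [Field F] [NumberField F] [Algebra K F], Prop)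
    (ℓ : ℕ) : ∀ (F : Type u) [Field F] [NumberField F] [Algebra K F], Prop
  | base (F : Type u) [Field F] [NumberField F] [Algebra K F] (h : P F) : TowerG P ℓ F
  | step (F F' : Type u) [Field F] [NumberField F] [Algebra K F] [Field F'] [NumberField F']
      [Algebra K F'] [Algebra F F'] [IsScalarTower K F F'] (hG : IsGalois F F')
      (hr : Module.finrank F F' = ℓ)
      (hu : ∀ v : HeightOneSpectrum (𝓞 F), (ℓ : 𝓞 F) ∈ v.asIdeal → ¬ MP_1a91b9_ntG.Ram F' v)
      (ha : ∀ v : HeightOneSpectrum (𝓞 F), MP_1a91b9_ntG.Ram F' v →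
        IsCoprime (psi F v.asIdeal - 1) (ℓ : 𝓞 K))
      (h : TowerG P ℓ F) : TowerG P ℓ F'

end

end Pool.Agent.Lib.MP_1a91b9_ntX.DS
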