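import Pool.Agent.Lib.MP_1a91b9_ntX.DS.Frob
import Pool.Agent.Lib.MP_1a91b9_ntX.DS.Lift

/-!
# DS: the conditions at the places for the class which comes from below

PROOF (complete; stream DS of helper29). Jobs LcA (`ram_cases`), LcB (`od_step`), LcC (`loc_step`).

`ram_cases`: `e(W/N) e(W.under N / F) = e(W/F) = e(W/F') e(W.under F' / F)` (multiplicativity of the
ramification indices in towers, `Ideal.ramificationIdx_algebra_tower` or from `od_map` applied to an
element of `F` of order `1`; `(W.under (𝓞 N)).under (𝓞 F) = W.under (𝓞 F)`). If `e(W.under F'/F) = 1` then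
`e(W/N)` divides `e(W/F')`, which divides `[N':F'] = q - 1` (Galois: `ncard * e * f = [N':F']`), and `e(W/N)`
divides `[N':N] = ℓ`; these are coprime (`PD.coprime_q`).

`od_step`: let `W` be a place of `N'` above `w` (`CF` or `S4.nonempty_over`; see the private lemma `fra_over` in
MP_1a91b9_nt_DB_FrA.lean). If `e(W/N) = 1`: `od w a1 = od W (inU a1) = od W a + ℓ od W z` (`od_map`, `od_mul`,
`od_pow`). Otherwise, by `ram_cases`, `v' = W.under (𝓞 F')` has `e(v'/F) ≠ 1`. It is enough to find `σ ≠ 1` in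
`Gal(N/F)` with `gpl σ w = w`: then `Iso.od_fix` gives `ℓ ∣ od w a1`
If `w 3 < 1` this is `hDT`. If `w 3 = 1`: `w ℓ = 1`:
otherwise `v' ℓ < 1` (`val_map_lt`), contradiction to `hu`; `hc : ¬ ϖ ∣ psi F v - 1`, `v = w.under (𝓞 F)` =
`v'.under (𝓞 F)`, from `ha` (`ϖ` divides `ℓ` and is not a unit); `decomp_psi`.

`loc_step`: `w ϖ < 1`; `W` above `w`. `e(W/N) = 1`: otherwise `e(v'/F) ≠ 1` with `v' ℓ < 1` (`ϖ ∣ ℓ`,
`val_map_lt`), contradiction to `hu`. So `od w x = od W x` for `x` in `N`. Choose `b1 : N` with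
`od w (a1 b1^ℓ) = 0` (`hod`, `exists_od_one`, integral powers), `u = a1 b1^ℓ`. `(b, c)` from `hloc W`:
`W (a b^ℓ) = 1`, `W (a b^ℓ - c^ℓ) ≤ exp (-2)`. `u = a z^ℓ b1^ℓ = (a b^ℓ) y^ℓ`, `y = z b1 / b`, so `W y = 1`; `t = c y`,
`u - t^ℓ = y^ℓ (a b^ℓ - c^ℓ)`: `W (u - t^ℓ) ≤ exp (-2)`, `W t = 1`. The residue field of `w` is finite of
characteristic `ℓ`, `x ↦ x^ℓ` is surjective on it: there is `s : N` (an integer), with `w (u - s^ℓ) < 1`
(approximate `u` by an integer first, `exists_val_lt_of_int`; surjectivity: injective on a finite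
ring, `frobenius` or `FiniteField`: `u^(Nw) = u` so `s = u^(Nw/ℓ)`, `Nw` is a power of `ℓ`). `w s = 1`. Then
`W ((t/s)^ℓ - 1) < 1`, so `pow_loc` gives `W ((t/s)^ℓ - 1) ≤ exp (-2)`, `W (t^ℓ - s^ℓ) ≤ exp (-2)`,
`W (u - s^ℓ) ≤ exp (-2)`, and by `e = 1` the same for `w`. Take `(b1, s)`.
-/

set_option autoImplicit false

namespace Pool.Agent.Lib.MP_1a91b9_ntX.DS

open NumberField IsDedekindDomain WeierstrassCurve Pool.Agent.Lib.MP_1a91b9_ntT
open Pool.Agent.Lib.MP_1a91b9_ntX.DB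

universe u

variable [DD] [HC]

private theorem lca_ram_dvd (k L : Type u) [Field k] [NumberField k] [Field L] [NumberField L]
    [Algebra k L] [IsGalois k L] (W : HeightOneSpectrum (𝓞 L)) :
    W.asIdeal.ramificationIdx (𝓞 k) ∣ Module.finrank k L := by
  have i1 : (W.under (𝓞 k)).asIdeal.IsPrime := (W.under (𝓞 k)).isPrime
  have i1m : (W.under (𝓞 k)).asIdeal.IsMaximal := (W.under (𝓞 k)).isMaximal
  have i2 : W.asIdeal.IsPrime := W.isPrime
  have i3 : W.asIdeal.LiesOver (W.under (𝓞 k)).asIdeal := ⟨rfl⟩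
  have hfund := Ideal.ncard_primesOver_mul_ramificationIdxIn_mul_inertiaDegIn
    (W.under (𝓞 k)).asIdeal (𝓞 L) Gal(L/k)
  rw [IsGalois.card_aut_eq_finrank, Ideal.ramificationIdxIn_eq_ramificationIdx
    (W.under (𝓞 k)).asIdeal W.asIdeal Gal(L/k)] at hfund
  rw [← hfund]
  exact (Dvd.intro _ rfl).mul_left _

section
variable {F F' N N' : Type u} [Field F] [NumberField F] [Algebra K F]
  [Field F'] [NumberField F'] [Algebra K F'] [Algebra F F'] [IsScalarTower K F F'] [IsGalois F F']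
  [Field N] [NumberField N] [Algebra K N] [Algebra F N] [IsScalarTower K F N] [DecidableEq N]
  [IsGalois F N] [Field N'] [NumberField N'] [Algebra K N'] [Algebra F' N'] [IsScalarTower K F' N']
  [DecidableEq N'] [IsGalois F' N'] [Algebra F N'] [IsScalarTower F F' N'] [IsScalarTower K F N']
  [IsGalois F N'] [Algebra N N'] [IsScalarTower K N N'] [IsScalarTower F N N'] [IsGalois N N']
  {ϖ : 𝓞 K} {ℓ q : ℕ} (h : PD ϖ ℓ q) {P : Pt N} {P' : Pt N'} (hS : Sq F F' ϖ ℓ P P')
  (hu : ∀ v : HeightOneSpectrum (𝓞 F'), v.valuation F' (ℓ : F') < 1 →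
    v.asIdeal.ramificationIdx (𝓞 F) = 1)
  (ha : ∀ v : HeightOneSpectrum (𝓞 F'), v.asIdeal.ramificationIdx (𝓞 F) ≠ 1 →
    IsCoprime (psi F (v.under (𝓞 F)).asIdeal - 1) (ℓ : 𝓞 K))
  (hDT : DT ϖ F)
include h hS

theorem ram_cases (W : HeightOneSpectrum (𝓞 N')) : W.asIdeal.ramificationIdx (𝓞 N) = 1 ∨
    (W.under (𝓞 F')).asIdeal.ramificationIdx (𝓞 F) ≠ 1 := by
  by_contra hcon
  push Not at hcon
  obtain ⟨hn1, he1⟩ := hcon
  have hNF : (W.under (𝓞 N)).under (𝓞 F) = W.under (𝓞 F) := by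
    apply HeightOneSpectrum.ext
    exact Ideal.under_under W.asIdeal
  have hFF : (W.under (𝓞 F')).under (𝓞 F) = W.under (𝓞 F) := by
    apply HeightOneSpectrum.ext
    exact Ideal.under_under W.asIdeal
  obtain ⟨z, hz⟩ := exists_od_one (W.under (𝓞 F))
  have h1 := od_map (k := N) W (algebraMap F N z)
  rw [← IsScalarTower.algebraMap_apply F N N', od_map (k := F) (L := N), hNF, hz, mul_one] at h1
  have h2 := od_map (k := F') W (algebraMap F F' z)
  rw [← IsScalarTower.algebraMap_apply F F' N', od_map (k := F) (L := F'), hFF, hz, mul_one,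
    he1, Nat.cast_one, mul_one] at h2
  rw [h2] at h1
  have h3 : W.asIdeal.ramificationIdx (𝓞 N) ∣ W.asIdeal.ramificationIdx (𝓞 F') := by
    refine ⟨(W.under (𝓞 N)).asIdeal.ramificationIdx (𝓞 F), ?_⟩
    exact_mod_cast h1
  have h4 : W.asIdeal.ramificationIdx (𝓞 N) ∣ q - 1 := by
    have h5 := Full.card h hS.full'
    have h6 : Module.finrank F' N' = q - 1 := by omega
    rw [← h6]
    exact h3.trans (lca_ram_dvd F' N' W)
  have h7 : W.asIdeal.ramificationIdx (𝓞 N) ∣ ℓ := by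
    have h8 := lca_ram_dvd N N' W
    rwa [hS.deg'] at h8
  have h9 := Nat.dvd_gcd h4 h7
  rw [h.coprime_q] at h9
  exact hn1 (Nat.dvd_one.1 h9)

include hu

end

open NumberField IsDedekindDomain WeierstrassCurve Pool.Agent.Lib.MP_1a91b9_ntT
open Pool.Agent.Lib.MP_1a91b9_ntX.DB

/-- a place above `W` -/
private theorem lcb_over {N L : Type u} [Field N] [NumberField N] [Field L] [NumberField L]
    [Algebra N L] (W : HeightOneSpectrum (𝓞 N)) :
    ∃ W' : HeightOneSpectrum (𝓞 L), W'.under (𝓞 N) = W := by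
  have i3 : W.asIdeal.IsPrime := W.isPrime
  obtain ⟨Q, hQ1, hQ2⟩ := (inferInstance : Nonempty (W.asIdeal.primesOver (𝓞 L)))
  have hb : Q ≠ ⊥ := Ideal.ne_bot_of_mem_primesOver W.ne_bot ⟨hQ1, hQ2⟩
  refine ⟨⟨Q, hQ1, hb⟩, ?_⟩
  apply HeightOneSpectrum.ext
  exact hQ2.over.symm

private theorem lcb_under {F N N' : Type u} [Field F] [NumberField F] [Field N] [NumberField N]
    [Field N'] [NumberField N'] [Algebra F N] [Algebra N N'] [Algebra F N'] [IsScalarTower F N N']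
    (W : HeightOneSpectrum (𝓞 N')) : (W.under (𝓞 N)).under (𝓞 F) = W.under (𝓞 F) := by
  apply HeightOneSpectrum.ext
  ext x
  change algebraMap (𝓞 N) (𝓞 N') (algebraMap (𝓞 F) (𝓞 N) x) ∈ W.asIdeal ↔
    algebraMap (𝓞 F) (𝓞 N') x ∈ W.asIdeal
  have e : algebraMap (𝓞 N) (𝓞 N') (algebraMap (𝓞 F) (𝓞 N) x) = algebraMap (𝓞 F) (𝓞 N') x := by
    apply RingOfIntegers.ext
    change algebraMap N N' (algebraMap F N (x : F)) = algebraMap F N' (x : F)
    rw [← IsScalarTower.algebraMap_apply]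
  rw [e]

section
variable {F F' N N' : Type u} [Field F] [NumberField F] [Algebra K F]
  [Field F'] [NumberField F'] [Algebra K F'] [Algebra F F'] [IsScalarTower K F F'] [IsGalois F F']
  [Field N] [NumberField N] [Algebra K N] [Algebra F N] [IsScalarTower K F N] [DecidableEq N]
  [IsGalois F N] [Field N'] [NumberField N'] [Algebra K N'] [Algebra F' N'] [IsScalarTower K F' N']
  [DecidableEq N'] [IsGalois F' N'] [Algebra F N'] [IsScalarTower F F' N'] [IsScalarTower K F N']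
  [IsGalois F N'] [Algebra N N'] [IsScalarTower K N N'] [IsScalarTower F N N'] [IsGalois N N']
  {ϖ : 𝓞 K} {ℓ q : ℕ} (h : PD ϖ ℓ q) {P : Pt N} {P' : Pt N'} (hS : Sq F F' ϖ ℓ P P')
  (hu : ∀ v : HeightOneSpectrum (𝓞 F'), v.valuation F' (ℓ : F') < 1 →
    v.asIdeal.ramificationIdx (𝓞 F) = 1)
  (ha : ∀ v : HeightOneSpectrum (𝓞 F'), v.asIdeal.ramificationIdx (𝓞 F) ≠ 1 →
    IsCoprime (psi F (v.under (𝓞 F)).asIdeal - 1) (ℓ : 𝓞 K))
  (hDT : DT ϖ F)
include h hS

include hu

include ha hDT in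
theorem od_step {a z : N'ˣ} {a1 : Nˣ}
    (hod : ∀ W : HeightOneSpectrum (𝓞 N'), (ℓ : ℤ) ∣ od W (a : N'))
    (hi : Iso F ℓ P a1) (h1 : inU N N' a1 = a * z ^ ℓ) (w : HeightOneSpectrum (𝓞 N)) :
    (ℓ : ℤ) ∣ od w (a1 : N) := by
  obtain ⟨W, hW⟩ := lcb_over (L := N') w
  rcases ram_cases h hS W with hr | hr
  · have e1 := od_map W (a1 : N)
    rw [hr, hW] at e1
    have e2 : algebraMap N N' (a1 : N) = (a : N') * (z : N') ^ ℓ := by
      have e3 := congrArg (fun u : N'ˣ => (u : N')) h1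
      simpa [inU_coe] using e3
    rw [e2, od_mul _ a.ne_zero (pow_ne_zero _ z.ne_zero), od_pow] at e1
    obtain ⟨m, hm⟩ := hod W
    refine ⟨m + od W (z : N'), ?_⟩
    rw [hm] at e1
    push_cast at e1
    linarith
  · have key : ∃ σ : Gal(N/F), σ ≠ 1 ∧ gpl σ w = w := by
      by_cases h3 : w.valuation N (bD N) < 1
      · exact hDT N P hS.full w h3
      · have h3' : w.valuation N (bD N) = 1 :=
          le_antisymm (v_int_le (w.valuation N) _) (not_lt.1 h3)
        have hv : w.under (𝓞 F) = (W.under (𝓞 F')).under (𝓞 F) := by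
          rw [← hW, lcb_under, lcb_under]
        have hl : w.valuation N (ℓ : N) = 1 := by
          by_contra hne
          have hlt : w.valuation N (ℓ : N) < 1 := lt_of_le_of_ne (v_nat_le _ _) hne
          have h2 : W.valuation N' (algebraMap N N' (ℓ : N)) < 1 :=
            (val_map_lt W _).2 (by rw [hW]; exact hlt)
          rw [map_natCast] at h2
          have h4 : (W.under (𝓞 F')).valuation F' (ℓ : F') < 1 :=
            (val_map_lt W (ℓ : F')).1 (by rw [map_natCast]; exact h2)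
          exact hr (hu _ h4)
        have hc := ha (W.under (𝓞 F')) hr
        rw [← hv] at hc
        refine decomp_psi h hS.full w h3' hl ?_
        intro hd
        exact h.prime.not_isUnit (hc.isUnit_of_dvd' hd h.dvd)
    obtain ⟨σ, hσ1, hσ⟩ := key
    exact Iso.od_fix h hS.full hi hσ hσ1

end

open NumberField IsDedekindDomain WeierstrassCurve Pool.Agent.Lib.MP_1a91b9_ntT
open Pool.Agent.Lib.MP_1a91b9_ntX.DB

/-- a place above `w` -/
private theorem lcc_over {N L : Type u} [Field N] [NumberField N] [Field L] [NumberField L]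
    [Algebra N L] (w : HeightOneSpectrum (𝓞 N)) :
    ∃ W : HeightOneSpectrum (𝓞 L), W.under (𝓞 N) = w := by
  have i3 : w.asIdeal.IsPrime := w.isPrime
  obtain ⟨Q, hQ1, hQ2⟩ := (inferInstance : Nonempty (w.asIdeal.primesOver (𝓞 L)))
  have hb : Q ≠ ⊥ := Ideal.ne_bot_of_mem_primesOver w.ne_bot ⟨hQ1, hQ2⟩
  refine ⟨⟨Q, hQ1, hb⟩, ?_⟩
  apply HeightOneSpectrum.ext
  exact hQ2.over.symm

/-- a unit at a place of residue characteristic `ℓ` is an `ℓ`-th power modulo the place -/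
private theorem lcc_root {N : Type u} [Field N] [NumberField N] {ℓ : ℕ} (hl : ℓ.Prime)
    (w : HeightOneSpectrum (𝓞 N)) (hw : w.valuation N (ℓ : N) < 1) {u : N}
    (hu : w.valuation N u ≤ 1) : ∃ s : N, w.valuation N (u - s ^ ℓ) < 1 := by
  obtain ⟨x, hx⟩ := exists_val_lt_of_int w hu 1
  have hx1 : w.valuation N (u - (x : N)) < 1 := by
    refine lt_of_le_of_lt hx ?_
    rw [← WithZero.exp_zero, WithZero.exp_lt_exp]
    norm_num
  have hm : w.asIdeal.IsMaximal := w.isMaximal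
  let _ : Field (𝓞 N ⧸ w.asIdeal) := Ideal.Quotient.field w.asIdeal
  have : Finite (𝓞 N ⧸ w.asIdeal) := Ring.HasFiniteQuotients.finiteQuotient w.ne_bot
  have : Fact ℓ.Prime := ⟨hl⟩
  have hmem : (ℓ : 𝓞 N) ∈ w.asIdeal := by
    rw [← w.valuation_lt_one_iff_mem (K := N)]
    change w.valuation N (algebraMap (𝓞 N) N (ℓ : 𝓞 N)) < 1
    rw [map_natCast]
    exact hw
  have : CharP (𝓞 N ⧸ w.asIdeal) ℓ := by
    have h0 : Ideal.Quotient.mk w.asIdeal (ℓ : 𝓞 N) = 0 := Ideal.Quotient.eq_zero_iff_mem.2 hmem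
    rw [map_natCast] at h0
    exact (CharP.charP_iff_prime_eq_zero hl).2 h0
  have hsurj : Function.Surjective (frobenius (𝓞 N ⧸ w.asIdeal) ℓ) :=
    Finite.injective_iff_surjective.1 (frobenius_inj _ ℓ)
  obtain ⟨r, hr⟩ := hsurj (Ideal.Quotient.mk w.asIdeal x)
  obtain ⟨s, rfl⟩ := Ideal.Quotient.mk_surjective r
  rw [frobenius_def, ← map_pow, Ideal.Quotient.eq] at hr
  refine ⟨(s : N), ?_⟩
  have h1 : w.valuation N (((s ^ ℓ - x : 𝓞 N)) : N) < 1 :=
    (w.valuation_lt_one_iff_mem (K := N) _).2 hr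
  have e : u - (s : N) ^ ℓ = (u - (x : N)) - (((s ^ ℓ - x : 𝓞 N)) : N) := by
    push_cast
    ring
  rw [e]
  exact Valuation.map_sub_lt _ hx1 h1

/-- the value of an element close to a unit -/
private theorem lcc_one {F : Type*} [Field F] {Γ : Type*} [LinearOrderedCommGroupWithZero Γ]
    (v : Valuation F Γ) {x y : F} (hx : v x = 1) (h : v (x - y) < 1) : v y = 1 := by
  have h1 := Valuation.map_sub_eq_of_lt_right v (x := x - y) (y := x) (by rwa [hx])
  rw [sub_sub_cancel_left, Valuation.map_neg] at h1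
  rw [h1, hx]

private theorem lcc_pow {F : Type*} [Field F] {Γ : Type*} [LinearOrderedCommGroupWithZero Γ]
    (v : Valuation F Γ) {x : F} {n : ℕ} (hn : n ≠ 0) (hx : v (x ^ n) = 1) : v x = 1 := by
  rw [map_pow] at hx
  exact (pow_eq_one_iff_of_nonneg zero_le hn).1 hx

section
variable {F F' N N' : Type u} [Field F] [NumberField F] [Algebra K F]
  [Field F'] [NumberField F'] [Algebra K F'] [Algebra F F'] [IsScalarTower K F F'] [IsGalois F F']
  [Field N] [NumberField N] [Algebra K N] [Algebra F N] [IsScalarTower K F N] [DecidableEq N]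
  [IsGalois F N] [Field N'] [NumberField N'] [Algebra K N'] [Algebra F' N'] [IsScalarTower K F' N']
  [DecidableEq N'] [IsGalois F' N'] [Algebra F N'] [IsScalarTower F F' N'] [IsScalarTower K F N']
  [IsGalois F N'] [Algebra N N'] [IsScalarTower K N N'] [IsScalarTower F N N'] [IsGalois N N']
  {ϖ : 𝓞 K} {ℓ q : ℕ} (h : PD ϖ ℓ q) {P : Pt N} {P' : Pt N'} (hS : Sq F F' ϖ ℓ P P')
  (hu : ∀ v : HeightOneSpectrum (𝓞 F'), v.valuation F' (ℓ : F') < 1 →
    v.asIdeal.ramificationIdx (𝓞 F) = 1)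
  (ha : ∀ v : HeightOneSpectrum (𝓞 F'), v.asIdeal.ramificationIdx (𝓞 F) ≠ 1 →
    IsCoprime (psi F (v.under (𝓞 F)).asIdeal - 1) (ℓ : 𝓞 K))
  (hDT : DT ϖ F)
include h hS

include hu

theorem loc_step {a z : N'ˣ} {a1 : Nˣ}
    (hloc : ∀ W : HeightOneSpectrum (𝓞 N'), W.valuation N' (algebraMap K N' (ϖ : K)) < 1 →
      WLoc ℓ W (a : N'))
    (hod : ∀ w : HeightOneSpectrum (𝓞 N), (ℓ : ℤ) ∣ od w (a1 : N))
    (h1 : inU N N' a1 = a * z ^ ℓ) (w : HeightOneSpectrum (𝓞 N))
    (hw : w.valuation N (algebraMap K N (ϖ : K)) < 1) : WLoc ℓ w (a1 : N) := by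
  obtain ⟨W, hWw⟩ := lcc_over (L := N') w
  have hl0 : ℓ ≠ 0 := h.hl.ne_zero
  have hW : W.valuation N' (algebraMap K N' (ϖ : K)) < 1 := by
    rw [IsScalarTower.algebraMap_apply K N N', val_map_lt, hWw]
    exact hw
  have hWl : W.valuation N' (ℓ : N') < 1 := by
    rw [h.val_ell hW]
    exact hW
  have hwl : w.valuation N (ℓ : N) < 1 := by
    rw [h.val_ell hw]
    exact hw
  have hvl : (W.under (𝓞 F')).valuation F' (ℓ : F') < 1 := by
    rw [← val_map_lt, map_natCast]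
    exact hWl
  have he : W.asIdeal.ramificationIdx (𝓞 N) = 1 := by
    rcases ram_cases h hS W with h2 | h2
    · exact h2
    · exact absurd (hu _ hvl) h2
  have hod' : ∀ x : N, od W (algebraMap N N' x) = od w x := by
    intro x
    rw [od_map, he, hWw]
    push_cast
    ring
  have hval : ∀ x : N, W.valuation N' (algebraMap N N' x) = w.valuation N x := by
    intro x
    rcases eq_or_ne x 0 with rfl | hx
    · rw [map_zero, map_zero, map_zero]
    · rw [val_eq W (by simpa using hx), val_eq w hx, hod']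
  -- normalise `a1`
  obtain ⟨n, hn⟩ := hod w
  obtain ⟨π, hπ⟩ := exists_od_one w
  have hπ0 : π ≠ 0 := by
    rintro rfl
    simp [od] at hπ
  set b1 : N := π ^ (-n) with hb1
  have hb10 : b1 ≠ 0 := zpow_ne_zero _ hπ0
  set u : N := (a1 : N) * b1 ^ ℓ with hu1
  have hu0 : u ≠ 0 := mul_ne_zero a1.ne_zero (pow_ne_zero _ hb10)
  have hwu : w.valuation N u = 1 := by
    rw [val_eq_one_iff w hu0, hu1, od_mul w a1.ne_zero (pow_ne_zero _ hb10), od_pow, hb1, od_zpow,
      hπ, hn]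
    ring
  obtain ⟨b, c, hb, hc⟩ := hloc W hW
  have hb0 : b ≠ 0 := by
    rintro rfl
    rw [zero_pow hl0, mul_zero, map_zero] at hb
    exact zero_ne_one hb
  set U : N' := algebraMap N N' u with hU
  have hWU : W.valuation N' U = 1 := by rw [hU, hval, hwu]
  have hUe : U = ((a : N') * b ^ ℓ) * ((z : N') * algebraMap N N' b1 / b) ^ ℓ := by
    have e1 : algebraMap N N' (a1 : N) = (a : N') * (z : N') ^ ℓ := by
      have := congrArg (fun y : N'ˣ => (y : N')) h1
      simpa [inU_coe] using this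
    rw [hU, hu1, map_mul, map_pow, e1, div_pow, mul_pow]
    field_simp
  set y : N' := (z : N') * algebraMap N N' b1 / b with hy
  have hWy : W.valuation N' y = 1 := by
    refine lcc_pow _ hl0 ?_
    have := hWU
    rw [hUe, map_mul, hb, one_mul] at this
    exact this
  set t : N' := c * y with ht
  have hUt : W.valuation N' (U - t ^ ℓ) ≤ WithZero.exp (-2 : ℤ) := by
    have e : U - t ^ ℓ = y ^ ℓ * ((a : N') * b ^ ℓ - c ^ ℓ) := by
      rw [hUe, ht]
      ring
    rw [e, map_mul, map_pow, hWy, one_pow, one_mul]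
    exact hc
  have hexp : (WithZero.exp (-2 : ℤ)) < 1 := by
    rw [← WithZero.exp_zero, WithZero.exp_lt_exp]
    norm_num
  obtain ⟨s, hs⟩ := lcc_root h.hl w hwl hwu.le
  have hws : w.valuation N s = 1 := lcc_pow _ hl0 (lcc_one _ hwu hs)
  set S : N' := algebraMap N N' s with hSd
  have hWS : W.valuation N' S = 1 := by rw [hSd, hval, hws]
  have hS0 : S ≠ 0 := by
    intro e
    rw [e, map_zero] at hWS
    exact zero_ne_one hWS
  have hUS : W.valuation N' (U - S ^ ℓ) < 1 := by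
    have e : U - S ^ ℓ = algebraMap N N' (u - s ^ ℓ) := by rw [map_sub, map_pow]
    rw [e, hval]
    exact hs
  have htS : W.valuation N' (t ^ ℓ - S ^ ℓ) < 1 := by
    have e : t ^ ℓ - S ^ ℓ = (U - S ^ ℓ) - (U - t ^ ℓ) := by ring
    rw [e]
    exact Valuation.map_sub_lt _ hUS (lt_of_le_of_lt hUt hexp)
  have hq : ∀ x : N', W.valuation N' (x / S ^ ℓ) = W.valuation N' x := by
    intro x
    rw [map_div₀, map_pow, hWS, one_pow, div_one]
  have hdiv : (t / S) ^ ℓ - 1 = (t ^ ℓ - S ^ ℓ) / S ^ ℓ := by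
    rw [div_pow, sub_div, div_self (pow_ne_zero _ hS0)]
  have h2 : W.valuation N' ((t / S) ^ ℓ - 1) < 1 := by
    rw [hdiv, hq]
    exact htS
  have h3 := pow_loc h hW h2
  rw [hdiv, hq] at h3
  refine ⟨b1, s, hwu, ?_⟩
  rw [← hu1, ← hval]
  have e : algebraMap N N' (u - s ^ ℓ) = (U - t ^ ℓ) + (t ^ ℓ - S ^ ℓ) := by
    rw [map_sub, map_pow]
    ring
  rw [e]
  exact Valuation.map_add_le _ hUt h3

end

end Pool.Agent.Lib.MP_1a91b9_ntX.DS
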