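import Pool.Agent.Lib.MP_1a91b9_ntX.DS.Sel

/-!
# DS: the norm of `b` is `1`, Hilbert 90

PROOF (complete; stream DS of helper29). Jobs NrA (`nmg_*`, `mu_fix`, `nm_pow`), NrB (`no_mu`), NrC
(`nm_one`), NrD (`exists_a0`).

`nmg γ ℓ b = Π_{i < ℓ} γ^i b`. `nmg_sg`: for `σ' ∈ Gal(N'/F')` `nmg (σ' b) = σ' (nmg b)` (`comm`).
`mu_fix`: `ζ^ℓ = 1`, `ζ ≠ 1`: a primitive root of unity (`ℓ` prime), `γ ζ = ζ^j` (`IsPrimitiveRoot.
eq_pow_of_pow_eq_one`), so `ζ = γ^ℓ ζ = ζ^(j^ℓ)`, `j^ℓ = j` modulo `ℓ` (Fermat), hence `γ ζ = ζ`.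
`nmg_mu`: so `nmg ζ = ζ^ℓ = 1`. `nm_pow`: from `γ a = a b^ℓ`: the product over `i < ℓ` of
`γ^(i+1) a = γ^i a (γ^i b)^ℓ` telescopes (`γ^ℓ = 1`): `(nmg b)^ℓ = 1`.

`no_mu` (`q = ℓ`): `ℓ = ϖ ϖ'` (`h.dvd`), `ϖ ∤ ϖ'` (`h.sq`), so `ϖ, ϖ'` are coprime; `absNorm (ϖ') = ℓ`
(`absNorm (ℓ) = ℓ^2`), so `ϖ'` is not a unit: there is a place `W` of `N'` with `W (ϖ') < 1` (a maximal
ideal containing the image of `ϖ'` in `𝓞 N'`; not a unit there: its norm / integrality, or take a place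
above the place of `K`). `W ϖ = 1`, `W 3 = 1` (`ℓ ≠ 3`). `DB.unram` (for `N'/F'`, `β = ϖ`, `R = P'`): the
ramification index is `1`, so `od W ℓ = od (W.under (𝓞 F')) ℓ = 1` (`od_map`, `hU`). If `ζ ≠ 1`,
`ζ^ℓ = 1`: `ℓ = Π_{0<i<ℓ} (1 - ζ^i)` (`IsPrimitiveRoot`: `prod_one_sub_pow_eq_order`), and
`(1 - ζ^i)/(1 - ζ)` is a unit (both quotients are sums of powers of `ζ`), so `(ℓ - 1) ∣ od W ℓ = 1`,
contradiction to `5 ≤ ℓ`.

`nm_one`. Let `Rel x ζ` for `x : El ℓ N'`, `ζ : N'ˣ`: there are `y, b` with `el y = x`, `γ y = y b^ℓ`,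
`nmg b = ζ`. (i) `Rel x ζ`, `Rel x ζ'` imply `ζ = ζ'`: `y' = y z^ℓ`, `γ y' = y' b'^ℓ` gives
`(b' z)^ℓ = (b γ z)^ℓ`, `b' z = b (γ z) ε` with `ε^ℓ = 1`, and `nmg` of both sides: `nmg z = nmg (γ z)`,
`nmg ε = 1`. (ii) `Rel x ζ`, `Rel x' ζ'` imply `Rel (x - x') (ζ / ζ')`; `Rel 0 1`. (iii) `ζ^ℓ = 1`
(`nm_pow`). Let `A` be the additive map of `ha : Iso F' ℓ P' a`, `ζ = nmg b`. For `c` not divisible by `ϖ`
choose `σ'_c` (`Full.all`): `Rel (A c) (σ'_c ζ)` (apply `σ'_c`, `comm`, `nmg_sg`).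
Suppose `ζ ≠ 1`. If `q = ℓ` this contradicts `no_mu` (`ζ^ℓ = 1`). If `q = ℓ^2`: `exists_isRes` gives `T` with
`T.card + 1 = q`; `c ↦ σ'_c ζ` is injective on `T`: if `σ'_c ζ = σ'_d ζ` with `¬ ϖ ∣ c - d` then
`Rel (A (c - d)) 1` and `Rel (A (c - d)) (σ'_{c-d} ζ)`, `σ'_{c-d} ζ = 1`, `ζ = 1`. So there are at least
`ℓ^2 - 1 > ℓ` elements `ε` with `ε^ℓ = 1`, but `X^ℓ - 1` has at most `ℓ` roots (`Polynomial.card_nthRoots`).

`exists_a0`: `Algebra.norm N (b : N') = Π_{τ ∈ Gal(N'/N)} τ b = nmg b = 1` (`Algebra.norm_eq_prod_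
automorphisms`; `i ↦ γ^i` is a bijection of `range ℓ` onto the group of order `ℓ`). Hilbert 90
(Mathlib: `exists_div_of_norm_eq_one` in Hilbert90.lean for cyclic extensions, or CF/ in the library
(`Pool.Agent.Lib.MP_1a91b9_ntT.CF`: HilbS / HerbA), or directly: Dedekind independence gives `x` with
`d = Σ_{i<ℓ} (Π_{j<i} γ^j b) γ^i x ≠ 0`, and `b γ d = d`). `a d^ℓ` is fixed by `γ`, so it is in `N`.
-/

set_option autoImplicit false

namespace Pool.Agent.Lib.MP_1a91b9_ntX.DS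

open NumberField IsDedekindDomain WeierstrassCurve Pool.Agent.Lib.MP_1a91b9_ntT
open Pool.Agent.Lib.MP_1a91b9_ntX.DB

universe u

variable [DD]

section
variable {N N' : Type u} [Field N] [Field N'] [Algebra N N'] {ℓ : ℕ} {γ : Gal(N'/N)}

theorem nmg_mul (a b : N'ˣ) : nmg γ ℓ (a * b) = nmg γ ℓ a * nmg γ ℓ b := by
  unfold nmg
  rw [← Finset.prod_mul_distrib]
  exact Finset.prod_congr rfl (fun i _ => sg_mul _ a b)

theorem nmg_inv (a : N'ˣ) : nmg γ ℓ a⁻¹ = (nmg γ ℓ a)⁻¹ := by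
  unfold nmg
  rw [← Finset.prod_inv_distrib]
  exact Finset.prod_congr rfl (fun i _ => sg_inv _ a)

private theorem nra_one (a : N'ˣ) : sg (1 : Gal(N'/N)) a = a := Units.ext rfl

private theorem nra_succ (i : ℕ) (a : N'ˣ) : sg (γ ^ (i + 1)) a = sg (γ ^ i) (sg γ a) := by
  rw [pow_succ, sg_sg]

private theorem nra_pow (b : N'ˣ) (n : ℕ) : nmg γ ℓ (b ^ n) = nmg γ ℓ b ^ n := by
  unfold nmg
  rw [← Finset.prod_pow]
  exact Finset.prod_congr rfl (fun i _ => sg_pow _ b n)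

theorem nmg_shift (hγ : γ ^ ℓ = 1) (a : N'ˣ) : nmg γ ℓ (sg γ a) = nmg γ ℓ a := by
  have h1 := Finset.prod_range_succ (fun i => sg (γ ^ i) a) ℓ
  have h2 := Finset.prod_range_succ' (fun i => sg (γ ^ i) a) ℓ
  have h3 : sg (γ ^ ℓ) a = sg (γ ^ 0) a := by rw [hγ, pow_zero]
  rw [h1, h3] at h2
  have h4 := mul_right_cancel h2
  unfold nmg
  rw [h4]
  exact Finset.prod_congr rfl (fun i _ => (nra_succ i a).symm)

theorem mu_fix (hℓ : ℓ.Prime) (hγ : γ ^ ℓ = 1) {ζ : N'ˣ} (hζ : ζ ^ ℓ = 1) : sg γ ζ = ζ := by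
  by_cases h1 : ζ = 1
  · rw [h1]
    exact map_one (Units.map (γ : N' →* N'))
  have hp : Fact ℓ.Prime := ⟨hℓ⟩
  have ho : orderOf ζ = ℓ := orderOf_eq_prime hζ h1
  have hprim : IsPrimitiveRoot (ζ : N') ℓ := by
    rw [IsPrimitiveRoot.coe_units_iff]
    have h2 := IsPrimitiveRoot.orderOf ζ
    rwa [ho] at h2
  have hz : (γ (ζ : N')) ^ ℓ = 1 := by
    rw [← map_pow]
    have h2 : (ζ : N') ^ ℓ = 1 := hprim.pow_eq_one
    rw [h2, map_one]
  have hne : NeZero ℓ := ⟨hℓ.ne_zero⟩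
  obtain ⟨j, -, hj⟩ := hprim.eq_pow_of_pow_eq_one hz
  have hj2 : sg γ ζ = ζ ^ j := by
    apply Units.ext
    rw [sg_coe, Units.val_pow_eq_pow_val]
    exact hj.symm
  have hit : ∀ i : ℕ, sg (γ ^ i) ζ = ζ ^ (j ^ i) := by
    intro i
    induction i with
    | zero => rw [pow_zero, pow_zero, pow_one, nra_one]
    | succ i ih => rw [nra_succ, hj2, sg_pow, ih, ← pow_mul, pow_succ]
  have hmod : j ^ ℓ ≡ j [MOD ℓ] := by
    rw [← ZMod.natCast_eq_natCast_iff, Nat.cast_pow]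
    exact ZMod.pow_card _
  have h5 := hit ℓ
  rw [hγ, nra_one] at h5
  have h6 : ζ ^ (j ^ ℓ) = ζ ^ j := by
    rw [pow_eq_pow_iff_modEq, ho]
    exact hmod
  rw [hj2, ← h6, ← h5]

theorem nmg_mu (hℓ : ℓ.Prime) (hγ : γ ^ ℓ = 1) {ζ : N'ˣ} (hζ : ζ ^ ℓ = 1) : nmg γ ℓ ζ = 1 := by
  have hit : ∀ i : ℕ, sg (γ ^ i) ζ = ζ := by
    intro i
    induction i with
    | zero => rw [pow_zero, nra_one]
    | succ i ih => rw [nra_succ, mu_fix hℓ hγ hζ, ih]
  unfold nmg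
  rw [Finset.prod_congr rfl (fun i _ => hit i), Finset.prod_const, Finset.card_range, hζ]

theorem nm_pow (hγ : γ ^ ℓ = 1) {a b : N'ˣ} (hab : sg γ a = a * b ^ ℓ) :
    nmg γ ℓ b ^ ℓ = 1 := by
  have h1 := nmg_shift hγ a
  rw [hab, nmg_mul, nra_pow] at h1
  exact mul_eq_left.1 h1

end

section
variable {k N : Type u} [Field k] [NumberField k] [Algebra K k] [Field N] [NumberField N]
  [Algebra K N] [Algebra k N] [IsScalarTower K k N] [DecidableEq N] [IsGalois k N]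
  {ϖ : 𝓞 K} {ℓ : ℕ} (h : PD ϖ ℓ ℓ) {P : Pt N} (hF : Full k ϖ P) (hU : UnrL ℓ k)
include h hF hU

end

section
variable {F F' N N' : Type u} [Field F] [NumberField F] [Algebra K F]
  [Field F'] [NumberField F'] [Algebra K F'] [Algebra F F'] [IsScalarTower K F F'] [IsGalois F F']
  [Field N] [NumberField N] [Algebra K N] [Algebra F N] [IsScalarTower K F N] [DecidableEq N]
  [IsGalois F N] [Field N'] [NumberField N'] [Algebra K N'] [Algebra F' N'] [IsScalarTower K F' N']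
  [DecidableEq N'] [IsGalois F' N'] [Algebra F N'] [IsScalarTower F F' N'] [IsScalarTower K F N']
  [IsGalois F N'] [Algebra N N'] [IsScalarTower K N N'] [IsScalarTower F N N'] [IsGalois N N']
  {ϖ : 𝓞 K} {ℓ q : ℕ} (h : PD ϖ ℓ q) {P : Pt N} {P' : Pt N'} (hS : Sq F F' ϖ ℓ P P')
include h hS

theorem nmg_sg (γ : Gal(N'/N)) (σ' : Gal(N'/F')) (b : N'ˣ) :
    nmg γ ℓ (sg σ' b) = sg σ' (nmg γ ℓ b) := by
  unfold nmg
  have h1 : sg σ' (∏ i ∈ Finset.range ℓ, sg (γ ^ i) b) =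
      ∏ i ∈ Finset.range ℓ, sg σ' (sg (γ ^ i) b) :=
    map_prod (Units.map (σ' : N' →* N')) _ _
  rw [h1]
  refine Finset.prod_congr rfl (fun i _ => ?_)
  apply Units.ext
  show (γ ^ i) (σ' (b : N')) = σ' ((γ ^ i) (b : N'))
  exact (comm h hS (γ ^ i) σ' (b : N')).symm

end

open NumberField IsDedekindDomain WeierstrassCurve Pool.Agent.Lib.MP_1a91b9_ntT
open Pool.Agent.Lib.MP_1a91b9_ntX.DB

section
variable {N N' : Type u} [Field N] [Field N'] [Algebra N N'] {ℓ : ℕ} {γ : Gal(N'/N)}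

end

private theorem nrb_finrank : Module.finrank ℚ K = 2 := by
  have h := IsCyclotomicExtension.finrank (K := ℚ) (n := 3) K
    (Polynomial.cyclotomic.irreducible_rat (by norm_num))
  rw [h]
  decide

/-- the order of `1 - ξ` is at most the order of `1 - ξ ^ n` -/
private theorem nrb_le {N : Type u} [Field N] [NumberField N] (W : HeightOneSpectrum (𝓞 N)) {ξ : N}
    (hξ : W.valuation N ξ ≤ 1) (n : ℕ) (h1 : 1 - ξ ^ n ≠ 0) : od W (1 - ξ) ≤ od W (1 - ξ ^ n) := by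
  have h2 : (1 - ξ) * ∑ i ∈ Finset.range n, ξ ^ i = 1 - ξ ^ n := mul_neg_geom_sum ξ n
  have h3 : 1 - ξ ≠ 0 := fun h => h1 (by rw [← h2, h, zero_mul])
  have h4 : ∑ i ∈ Finset.range n, ξ ^ i ≠ 0 := fun h => h1 (by rw [← h2, h, mul_zero])
  have h5 : W.valuation N (∑ i ∈ Finset.range n, ξ ^ i) ≤ 1 := by
    refine Valuation.map_sum_le _ (fun i _ => ?_)
    rw [map_pow]
    exact pow_le_one₀ zero_le hξ
  rw [← h2, od_mul W h3 h4]
  have h6 := (val_le_one_iff W h4).1 h5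
  linarith

private theorem nrb_od {N : Type u} [Field N] [NumberField N] (W : HeightOneSpectrum (𝓞 N)) {ξ : N}
    {ℓ : ℕ} (hξ : IsPrimitiveRoot ξ ℓ) (hℓ : ℓ.Prime) {i : ℕ} (hi : 0 < i) (hi' : i < ℓ) :
    od W (1 - ξ ^ i) = od W (1 - ξ) := by
  have hv : W.valuation N ξ = 1 := by
    have h1 : W.valuation N ξ ^ ℓ = 1 := by rw [← map_pow, hξ.pow_eq_one, map_one]
    exact (pow_eq_one_iff.1 h1).resolve_right hℓ.ne_zero
  have hi1 : ξ ^ i ≠ 1 := by
    intro h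
    exact absurd ((hξ.pow_eq_one_iff_dvd i).1 h) (Nat.not_dvd_of_pos_of_lt hi hi')
  have hp : IsPrimitiveRoot (ξ ^ i) ℓ := by
    refine hξ.pow_of_coprime i ?_
    rw [Nat.coprime_comm, hℓ.coprime_iff_not_dvd]
    exact Nat.not_dvd_of_pos_of_lt hi hi'
  have : NeZero ℓ := ⟨hℓ.ne_zero⟩
  obtain ⟨j, -, hj⟩ := hp.eq_pow_of_pow_eq_one hξ.pow_eq_one
  apply le_antisymm
  · have h2 : 1 - (ξ ^ i) ^ j ≠ 0 := by
      rw [hj]
      exact sub_ne_zero.2 (hξ.ne_one hℓ.one_lt).symm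
    have h3 := nrb_le W (ξ := ξ ^ i) (by rw [map_pow, hv, one_pow]) j h2
    rwa [hj] at h3
  · exact nrb_le W hv.le i (sub_ne_zero.2 (Ne.symm hi1))

private theorem nrb_place {N : Type u} [Field N] [NumberField N] [Algebra K N] {a : 𝓞 K}
    (ha : a ≠ 0) (hu : ¬ IsUnit a) : ∃ W : HeightOneSpectrum (𝓞 N),
      W.valuation N (algebraMap K N (a : K)) < 1 := by
  by_contra hcon
  push Not at hcon
  have ha' : (a : K) ≠ 0 := fun h => ha (by exact_mod_cast h)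
  have ha0 : algebraMap K N (a : K) ≠ 0 := fun h => ha' ((map_eq_zero _).1 h)
  have hint : IsIntegral ℤ (algebraMap K N (a : K)) := (RingOfIntegers.isIntegral_coe a).algebraMap
  have hle : ∀ W : HeightOneSpectrum (𝓞 N), W.valuation N (algebraMap K N (a : K)) ≤ 1 := by
    intro W
    obtain ⟨y, hy⟩ : ∃ y : 𝓞 N, (y : N) = algebraMap K N (a : K) := ⟨⟨_, hint⟩, rfl⟩
    rw [← hy]
    exact W.valuation_le_one y
  obtain ⟨x, hx⟩ := exists_unit_of_od ha0 (fun W => (val_eq_one_iff W ha0).1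
    (le_antisymm (hle W) (hcon W)))
  apply hu
  have h1 : (((x⁻¹ : (𝓞 N)ˣ) : 𝓞 N) : N) = algebraMap K N ((a : K)⁻¹) := by
    have h2 : ((x : 𝓞 N) : N) * (((x⁻¹ : (𝓞 N)ˣ) : 𝓞 N) : N) = 1 := by
      rw [← map_mul, ← Units.val_mul, mul_inv_cancel, Units.val_one, map_one]
    rw [map_inv₀, ← hx]
    exact eq_inv_of_mul_eq_one_right h2
  have h3 : IsIntegral ℤ ((a : K)⁻¹) := by
    have h4 : IsIntegral ℤ (algebraMap K N ((a : K)⁻¹)) := by
      rw [← h1]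
      exact RingOfIntegers.isIntegral_coe _
    exact (isIntegral_algebraMap_iff (algebraMap K N).injective).1 h4
  obtain ⟨b, hb⟩ : ∃ b : 𝓞 K, (b : K) = (a : K)⁻¹ := ⟨⟨_, h3⟩, rfl⟩
  refine IsUnit.of_mul_eq_one b ?_
  apply RingOfIntegers.ext
  change (a : K) * (b : K) = 1
  rw [hb, mul_inv_cancel₀ ha']

section
variable {k N : Type u} [Field k] [NumberField k] [Algebra K k] [Field N] [NumberField N]
  [Algebra K N] [Algebra k N] [IsScalarTower K k N] [DecidableEq N] [IsGalois k N]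
  {ϖ : 𝓞 K} {ℓ : ℕ} (h : PD ϖ ℓ ℓ) {P : Pt N} (hF : Full k ϖ P) (hU : UnrL ℓ k)
include h hF hU

/-- no roots of unity of order `ℓ` in the split case -/
theorem no_mu {ζ : Nˣ} (hζ : ζ ^ ℓ = 1) : ζ = 1 := by
  have hℓ : ℓ.Prime := h.hl
  have h5 : 5 ≤ ℓ := h.five
  obtain ⟨ϖ', hϖ'⟩ := h.dvd
  have hndvd : ¬ ϖ ∣ ϖ' := by
    rintro ⟨c, hc⟩
    exact h.sq ⟨c, by rw [hϖ', hc]; ring⟩
  have hl0 : (ℓ : 𝓞 K) ≠ 0 := by exact_mod_cast hℓ.ne_zero
  have hϖ'0 : ϖ' ≠ 0 := fun h0 => hl0 (by rw [hϖ', h0, mul_zero])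
  have hnorm : Ideal.absNorm (Ideal.span {ϖ'}) = ℓ := by
    have h1 : Ideal.absNorm (Ideal.span {(ℓ : 𝓞 K)}) = ℓ ^ 2 := by
      rw [Ideal.absNorm_span_natCast, RingOfIntegers.rank, nrb_finrank]
    have h2 : Ideal.absNorm (Ideal.span {(ℓ : 𝓞 K)}) =
        Ideal.absNorm (Ideal.span {ϖ}) * Ideal.absNorm (Ideal.span {ϖ'}) := by
      rw [hϖ', ← map_mul, Ideal.span_singleton_mul_span_singleton]
    rw [h1, h.norm, pow_two] at h2
    exact (Nat.eq_of_mul_eq_mul_left hℓ.pos h2).symm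
  have hnu : ¬ IsUnit ϖ' := by
    intro hu
    rw [Ideal.span_singleton_eq_top.2 hu, Ideal.absNorm_top] at hnorm
    omega
  obtain ⟨W, hW⟩ := nrb_place (N := N) hϖ'0 hnu
  have hle : ∀ a : 𝓞 K, W.valuation N (algebraMap K N (a : K)) ≤ 1 := by
    intro a
    have hint : IsIntegral ℤ (algebraMap K N (a : K)) :=
      (RingOfIntegers.isIntegral_coe a).algebraMap
    obtain ⟨y, hy⟩ : ∃ y : 𝓞 N, (y : N) = algebraMap K N (a : K) := ⟨⟨_, hint⟩, rfl⟩
    rw [← hy]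
    exact W.valuation_le_one y
  -- `ϖ` is a unit at `W`
  have hWϖ : W.valuation N (algebraMap K N (ϖ : K)) = 1 := by
    by_contra hne
    have hlt : W.valuation N (algebraMap K N (ϖ : K)) < 1 := lt_of_le_of_ne (hle ϖ) hne
    obtain ⟨d, c, hc⟩ := h.inv hndvd
    have h1 : (1 : N) = algebraMap K N (ϖ' : K) * algebraMap K N (d : K) -
        algebraMap K N (ϖ : K) * algebraMap K N (c : K) := by
      have h2 : (1 : 𝓞 K) = ϖ' * d - ϖ * c := by rw [← hc]; ring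
      have h3 := congrArg (fun x : 𝓞 K => algebraMap K N (x : K)) h2
      simpa only [map_one, map_sub, map_mul] using h3
    have h2 : W.valuation N (1 : N) < 1 := by
      rw [h1]
      refine Valuation.map_sub_lt _ ?_ ?_
      · rw [map_mul]
        exact lt_of_le_of_lt (mul_le_of_le_one_right' (hle d)) hW
      · rw [map_mul]
        exact lt_of_le_of_lt (mul_le_of_le_one_right' (hle c)) hlt
    rw [map_one] at h2
    exact lt_irrefl _ h2
  -- `ℓ` is not a unit at `W`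
  have hWℓ : W.valuation N (ℓ : N) < 1 := by
    have h1 : (ℓ : N) = algebraMap K N (ϖ : K) * algebraMap K N (ϖ' : K) := by
      have h3 := congrArg (fun x : 𝓞 K => algebraMap K N (x : K)) hϖ'
      simpa only [map_natCast, map_mul] using h3
    rw [h1, map_mul, hWϖ, one_mul]
    exact hW
  have hram := DB.unram (k := k) (F := N) h.prime h.one hF.ord hF.gen W (h.bad_ell hWℓ) hWϖ
  have hod : od W (ℓ : N) = 1 := by
    have h1 := od_map (k := k) W (ℓ : k)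
    rw [map_natCast] at h1
    have h2 : (W.under (𝓞 k)).valuation k (ℓ : k) < 1 := by
      rw [← val_map_lt (k := k) W, map_natCast]
      exact hWℓ
    rw [h1, hram, hU _ h2]
    simp
  by_contra hne
  have hprim : IsPrimitiveRoot (ζ : N) ℓ := by
    have h1 : orderOf ζ = ℓ := by
      rcases (Nat.dvd_prime hℓ).1 (orderOf_dvd_of_pow_eq_one hζ) with h1 | h1
      · exact absurd (orderOf_eq_one_iff.1 h1) hne
      · exact h1
    have h2 := IsPrimitiveRoot.orderOf ζ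
    rw [h1] at h2
    exact IsPrimitiveRoot.coe_units_iff.2 h2
  obtain ⟨n, rfl⟩ : ∃ n, ℓ = n + 1 := ⟨ℓ - 1, by omega⟩
  have hprod := hprim.prod_one_sub_pow_eq_order
  have hsum : od W (((n + 1 : ℕ) : N)) = n * od W (1 - (ζ : N)) := by
    have h1 : ((n + 1 : ℕ) : N) = ∏ i ∈ Finset.range n, (1 - (ζ : N) ^ (i + 1)) := by
      rw [hprod]
      push_cast
      rfl
    rw [h1, od_prod W _ _ (fun i hi => ?_)]
    · rw [Finset.sum_congr rfl (fun i hi => nrb_od W hprim hℓ (Nat.succ_pos i)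
        (by rw [Finset.mem_range] at hi; omega))]
      simp
    · rw [Finset.mem_range] at hi
      refine sub_ne_zero.2 (fun h1 => ?_)
      exact absurd ((hprim.pow_eq_one_iff_dvd (i + 1)).1 h1.symm)
        (Nat.not_dvd_of_pos_of_lt (Nat.succ_pos i) (by omega))
  rw [hod] at hsum
  have h6 : (n : ℤ) ∣ 1 := ⟨_, hsum⟩
  have h7 := Int.le_of_dvd one_pos h6
  omega

end

section
variable {F F' N N' : Type u} [Field F] [NumberField F] [Algebra K F]
  [Field F'] [NumberField F'] [Algebra K F'] [Algebra F F'] [IsScalarTower K F F'] [IsGalois F F']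
  [Field N] [NumberField N] [Algebra K N] [Algebra F N] [IsScalarTower K F N] [DecidableEq N]
  [IsGalois F N] [Field N'] [NumberField N'] [Algebra K N'] [Algebra F' N'] [IsScalarTower K F' N']
  [DecidableEq N'] [IsGalois F' N'] [Algebra F N'] [IsScalarTower F F' N'] [IsScalarTower K F N']
  [IsGalois F N'] [Algebra N N'] [IsScalarTower K N N'] [IsScalarTower F N N'] [IsGalois N N']
  {ϖ : 𝓞 K} {ℓ q : ℕ} (h : PD ϖ ℓ q) {P : Pt N} {P' : Pt N'} (hS : Sq F F' ϖ ℓ P P')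
include h hS

end

open NumberField IsDedekindDomain WeierstrassCurve Pool.Agent.Lib.MP_1a91b9_ntT
open Pool.Agent.Lib.MP_1a91b9_ntX.DB

section
variable {N N' : Type u} [Field N] [Field N'] [Algebra N N'] {ℓ : ℕ} {γ : Gal(N'/N)}

end

section
variable {k N : Type u} [Field k] [NumberField k] [Algebra K k] [Field N] [NumberField N]
  [Algebra K N] [Algebra k N] [IsScalarTower K k N] [DecidableEq N] [IsGalois k N]
  {ϖ : 𝓞 K} {ℓ : ℕ} (h : PD ϖ ℓ ℓ) {P : Pt N} (hF : Full k ϖ P) (hU : UnrL ℓ k)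
include h hF hU

end

section
variable {N N' : Type u} [Field N] [Field N'] [Algebra N N'] {ℓ : ℕ} {γ : Gal(N'/N)}

/-- the relation of `nm_one`: the class `x` is represented by `y` with `γ y = y b ^ ℓ`, and `ζ` is the norm of `b` -/
def nrcRel (γ : Gal(N'/N)) (ℓ : ℕ) (x : El ℓ N') (ζ : N'ˣ) : Prop :=
  ∃ y b : N'ˣ, el ℓ y = x ∧ sg γ y = y * b ^ ℓ ∧ nmg γ ℓ b = ζ

theorem nrcRel_unique (hℓ : ℓ.Prime) (hγ : γ ^ ℓ = 1) {x : El ℓ N'} {ζ ζ' : N'ˣ}
    (h : nrcRel γ ℓ x ζ) (h' : nrcRel γ ℓ x ζ') : ζ = ζ' := by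
  obtain ⟨y, b, hy, hb, rfl⟩ := h
  obtain ⟨y', b', hy', hb', rfl⟩ := h'
  obtain ⟨z, hz⟩ := el_eq.1 (hy.trans hy'.symm)
  have h1 : sg γ y = y' * b' ^ ℓ * sg γ z ^ ℓ := by
    rw [hz, sg_mul, sg_pow, hb']
  have h2 : sg γ y = y' * z ^ ℓ * b ^ ℓ := by
    rw [hb, hz]
  have h3 : (b' * sg γ z) ^ ℓ = (z * b) ^ ℓ := by
    rw [mul_pow, mul_pow]
    have h4 := h1.symm.trans h2
    rw [mul_assoc, mul_assoc] at h4
    exact mul_left_cancel h4
  have h5 : (b' * sg γ z * (z * b)⁻¹) ^ ℓ = 1 := by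
    rw [mul_pow, h3, ← mul_pow, mul_inv_cancel, one_pow]
  have h6 := nmg_mu hℓ hγ h5
  have h7 : b' * sg γ z = (b' * sg γ z * (z * b)⁻¹) * (z * b) := by
    rw [inv_mul_cancel_right]
  have h8 := congrArg (nmg γ ℓ) h7
  rw [nmg_mul (b' * sg γ z * (z * b)⁻¹) (z * b), h6, one_mul, nmg_mul, nmg_mul, nmg_shift hγ,
    mul_comm (nmg γ ℓ z)] at h8
  exact (mul_right_cancel h8).symm

theorem nrcRel_sub {x x' : El ℓ N'} {ζ ζ' : N'ˣ}
    (h : nrcRel γ ℓ x ζ) (h' : nrcRel γ ℓ x' ζ') : nrcRel γ ℓ (x - x') (ζ * ζ'⁻¹) := by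
  obtain ⟨y, b, rfl, hb, rfl⟩ := h
  obtain ⟨y', b', rfl, hb', rfl⟩ := h'
  refine ⟨y * y'⁻¹, b * b'⁻¹, ?_, ?_, ?_⟩
  · rw [el_mul, el_inv, sub_eq_add_neg]
  · rw [sg_mul, sg_inv, hb, hb', mul_inv, mul_pow, inv_pow]
    exact mul_mul_mul_comm _ _ _ _
  · rw [nmg_mul, nmg_inv]

theorem nrc_card (hℓ : 0 < ℓ) {S : Type*} (T : Finset S) (f : S → N'ˣ)
    (h1 : ∀ c ∈ T, f c ^ ℓ = 1) (h2 : ∀ c ∈ T, ∀ d ∈ T, f c = f d → c = d) : T.card ≤ ℓ := by
  classical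
  have h3 : T.card ≤ (Polynomial.nthRootsFinset ℓ (1 : N')).card := by
    refine Finset.card_le_card_of_injOn (fun c => (f c : N')) ?_ ?_
    · intro c hc
      have h4 := congrArg (fun u : N'ˣ => (u : N')) (h1 c (Finset.mem_coe.1 hc))
      refine Finset.mem_coe.2 ((Polynomial.mem_nthRootsFinset hℓ _).2 ?_)
      simpa using h4
    · intro c hc d hd hcd
      exact h2 c (Finset.mem_coe.1 hc) d (Finset.mem_coe.1 hd) (Units.ext hcd)
  refine h3.trans ?_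
  rw [Polynomial.nthRootsFinset]
  exact (Multiset.toFinset_card_le _).trans (Polynomial.card_nthRoots _ _)

end

section
variable {F F' N N' : Type u} [Field F] [NumberField F] [Algebra K F]
  [Field F'] [NumberField F'] [Algebra K F'] [Algebra F F'] [IsScalarTower K F F'] [IsGalois F F']
  [Field N] [NumberField N] [Algebra K N] [Algebra F N] [IsScalarTower K F N] [DecidableEq N]
  [IsGalois F N] [Field N'] [NumberField N'] [Algebra K N'] [Algebra F' N'] [IsScalarTower K F' N']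
  [DecidableEq N'] [IsGalois F' N'] [Algebra F N'] [IsScalarTower F F' N'] [IsScalarTower K F N']
  [IsGalois F N'] [Algebra N N'] [IsScalarTower K N N'] [IsScalarTower F N N'] [IsGalois N N']
  {ϖ : 𝓞 K} {ℓ q : ℕ} (h : PD ϖ ℓ q) {P : Pt N} {P' : Pt N'} (hS : Sq F F' ϖ ℓ P P')
include h hS

theorem nm_one (hU : UnrL ℓ F') {γ : Gal(N'/N)} (hγ : γ ^ ℓ = 1) {a b : N'ˣ}
    (ha : Iso F' ℓ P' a) (hab : sg γ a = a * b ^ ℓ) : nmg γ ℓ b = 1 := by
  have hz : nmg γ ℓ b ^ ℓ = 1 := nm_pow hγ hab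
  rcases h.alt with hq | hq
  · subst hq
    exact no_mu h hS.full' hU hz
  · by_contra hne
    obtain ⟨A, hA⟩ := ha
    have hall : ∀ c : 𝓞 K, ¬ ϖ ∣ c → ∃ ε : N'ˣ, nrcRel γ ℓ (A c) ε ∧ ε ^ ℓ = 1 ∧ ε ≠ 1 := by
      intro c hc
      obtain ⟨σ, hσ⟩ := hS.full'.all c hc
      refine ⟨sg σ (nmg γ ℓ b), ⟨sg σ a, sg σ b, hA σ c hσ, ?_, nmg_sg h hS γ σ b⟩, ?_, ?_⟩
      · have h1 : sg γ (sg σ a) = sg σ (sg γ a) := by
          apply Units.ext
          rw [sg_coe, sg_coe, sg_coe, sg_coe]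
          exact (comm h hS γ σ (a : N')).symm
        rw [h1, hab, sg_mul, sg_pow]
      · rw [← sg_pow, hz]
        exact map_one _
      · intro h1
        apply hne
        apply Units.ext
        have h2 := congrArg (fun u : N'ˣ => (u : N')) h1
        have h3 : σ ((nmg γ ℓ b : N'ˣ) : N') = σ 1 := by
          rw [map_one]
          exact h2
        exact σ.injective h3
    choose! f hf using hall
    obtain ⟨T, hT, hc⟩ := exists_isRes h.prime.ne_zero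
    have hle : T.card ≤ ℓ := by
      refine nrc_card h.hl.pos T f (fun c hcT => (hf c (hT.nz c hcT)).2.1) ?_
      intro c hcT d hdT hcd
      by_contra hne'
      have hnd : ¬ ϖ ∣ c - d := fun h1 => hne' (hT.uniq c hcT d hdT h1)
      have h1 := nrcRel_sub (hf c (hT.nz c hcT)).1 (hf d (hT.nz d hdT)).1
      have h2 : A (c - d) = A c - A d := eq_sub_of_add_eq (by rw [← map_add, sub_add_cancel])
      rw [hcd, mul_inv_cancel, ← h2] at h1
      exact (hf (c - d) hnd).2.2 (nrcRel_unique h.hl hγ (hf (c - d) hnd).1 h1)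
    rw [h.norm, hq] at hc
    have h5 := h.five
    nlinarith

end

open NumberField IsDedekindDomain WeierstrassCurve Pool.Agent.Lib.MP_1a91b9_ntT
open Pool.Agent.Lib.MP_1a91b9_ntX.DB

section
variable {N N' : Type u} [Field N] [Field N'] [Algebra N N'] {ℓ : ℕ} {γ : Gal(N'/N)}

theorem exists_a0 [FiniteDimensional N N'] [IsGalois N N'] (hd : Module.finrank N N' = ℓ)
    (hg : ∀ τ : Gal(N'/N), ∃ i : ℕ, τ = γ ^ i) (hγ : γ ^ ℓ = 1) {a b : N'ˣ}
    (hab : sg γ a = a * b ^ ℓ) (hb : nmg γ ℓ b = 1) :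
    ∃ (a0 : Nˣ) (d : N'ˣ), inU N N' a0 = a * d ^ ℓ := by
  classical
  have hcard : Fintype.card Gal(N'/N) = ℓ := by
    rw [← Nat.card_eq_fintype_card, IsGalois.card_aut_eq_finrank, hd]
  have hpos : 0 < ℓ := by
    rw [← hcard]
    exact Fintype.card_pos
  -- the powers of `γ` with exponents below `ℓ` are the whole group
  have hsurj : Function.Surjective (fun i : Fin ℓ => γ ^ (i : ℕ)) := by
    intro τ
    obtain ⟨i, hi⟩ := hg τ
    refine ⟨⟨i % ℓ, Nat.mod_lt _ hpos⟩, ?_⟩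
    change γ ^ (i % ℓ) = τ
    rw [hi]
    conv_rhs => rw [← Nat.mod_add_div i ℓ, pow_add, pow_mul, hγ, one_pow, mul_one]
  have hinj : Function.Injective (fun i : Fin ℓ => γ ^ (i : ℕ)) := by
    have hb' : Function.Bijective (fun i : Fin ℓ => γ ^ (i : ℕ)) := by
      rw [Fintype.bijective_iff_surjective_and_card]
      exact ⟨hsurj, by rw [Fintype.card_fin, hcard]⟩
    exact hb'.1
  -- partial products
  let c : ℕ → N' := fun i => ∏ j ∈ Finset.range i, (γ ^ j) (b : N')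
  have hc0 : c 0 = 1 := by simp [c]
  have hcs : ∀ i, (b : N') * γ (c i) = c (i + 1) := by
    intro i
    simp only [c]
    rw [Finset.prod_range_succ', map_prod, mul_comm]
    congr 1
    refine Finset.prod_congr rfl fun j _ => ?_
    rw [pow_succ']
    rfl
  have hcl : c ℓ = 1 := by
    have h1 : ((nmg γ ℓ b : N'ˣ) : N') = 1 := by rw [hb, Units.val_one]
    rw [nmg, Units.coe_prod] at h1
    exact h1
  -- Dedekind independence
  have hli : LinearIndependent N' (fun i : Fin ℓ => ((γ ^ (i : ℕ) : Gal(N'/N)) : N' → N')) :=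
    LinearIndependent.comp (ι' := Fin ℓ)
      (linearIndependent_monoidHom N' N') (fun i => ((γ ^ (i : ℕ) : Gal(N'/N)) : N' →* N'))
      (fun i j h => hinj (by ext x; exact DFunLike.ext_iff.1 h x))
  obtain ⟨x, hx⟩ : ∃ x, ∑ i : Fin ℓ, c i * (γ ^ (i : ℕ)) x ≠ 0 := by
    by_contra hne
    push Not at hne
    have h0 := Fintype.linearIndependent_iff.1 hli (fun i => c i) (by
      funext x
      have := hne x
      simpa [Finset.sum_apply] using this) ⟨0, hpos⟩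
    simp [hc0] at h0
  rw [Fin.sum_univ_eq_sum_range (fun i => c i * (γ ^ i) x) ℓ] at hx
  set d : N' := ∑ i ∈ Finset.range ℓ, c i * (γ ^ i) x with hdd
  have hbd : (b : N') * γ d = d := by
    have h1 : (b : N') * γ d = ∑ i ∈ Finset.range ℓ, c (i + 1) * (γ ^ (i + 1)) x := by
      rw [hdd, map_sum, Finset.mul_sum]
      refine Finset.sum_congr rfl fun i _ => ?_
      rw [map_mul, ← mul_assoc, hcs, pow_succ']
      rfl
    have h2 := Finset.sum_range_succ' (fun i => c i * (γ ^ i) x) ℓ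
    rw [Finset.sum_range_succ, hcl, hγ, hc0, pow_zero] at h2
    rw [h1]
    exact (add_right_cancel h2).symm
  let du : N'ˣ := Units.mk0 d hx
  have hfix : γ ((a : N') * d ^ ℓ) = a * d ^ ℓ := by
    have h3 : γ (a : N') = a * (b : N') ^ ℓ := by
      have := congrArg (Units.val) hab
      rw [sg_coe] at this
      rw [this]
      simp
    rw [map_mul, map_pow, h3, mul_assoc, ← mul_pow, hbd]
  have hfix' : ∀ τ : Gal(N'/N), τ ((a : N') * d ^ ℓ) = a * d ^ ℓ := by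
    intro τ
    obtain ⟨i, rfl⟩ := hg τ
    induction i with
    | zero => rfl
    | succ n ih =>
      rw [pow_succ]
      change (γ ^ n) (γ _) = _
      rw [hfix, ih]
  obtain ⟨y, hy⟩ := (IsGalois.mem_range_algebraMap_iff_fixed _).2 hfix'
  have hne : (a : N') * d ^ ℓ ≠ 0 := mul_ne_zero a.ne_zero (pow_ne_zero _ hx)
  have hy0 : y ≠ 0 := by
    rintro rfl
    rw [map_zero] at hy
    exact hne hy.symm
  refine ⟨Units.mk0 y hy0, du, ?_⟩
  ext
  rw [inU_coe, Units.val_mk0, hy, Units.val_mul, Units.val_pow_eq_pow_val]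
  rfl

end

section
variable {k N : Type u} [Field k] [NumberField k] [Algebra K k] [Field N] [NumberField N]
  [Algebra K N] [Algebra k N] [IsScalarTower K k N] [DecidableEq N] [IsGalois k N]
  {ϖ : 𝓞 K} {ℓ : ℕ} (h : PD ϖ ℓ ℓ) {P : Pt N} (hF : Full k ϖ P) (hU : UnrL ℓ k)
include h hF hU

end

section
variable {F F' N N' : Type u} [Field F] [NumberField F] [Algebra K F]
  [Field F'] [NumberField F'] [Algebra K F'] [Algebra F F'] [IsScalarTower K F F'] [IsGalois F F']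
  [Field N] [NumberField N] [Algebra K N] [Algebra F N] [IsScalarTower K F N] [DecidableEq N]
  [IsGalois F N] [Field N'] [NumberField N'] [Algebra K N'] [Algebra F' N'] [IsScalarTower K F' N']
  [DecidableEq N'] [IsGalois F' N'] [Algebra F N'] [IsScalarTower F F' N'] [IsScalarTower K F N']
  [IsGalois F N'] [Algebra N N'] [IsScalarTower K N N'] [IsScalarTower F N N'] [IsGalois N N']
  {ϖ : 𝓞 K} {ℓ q : ℕ} (h : PD ϖ ℓ q) {P : Pt N} {P' : Pt N'} (hS : Sq F F' ϖ ℓ P P')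
include h hS

end

end Pool.Agent.Lib.MP_1a91b9_ntX.DS
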